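import Pool.Agent.Helper53.FM.Defs

/-!
# Project FN: counting blocks in a tower

World `k` is good on the blocks `Z k ≤ j < Y k`, the blocks `Y k ≤ j < Z (k + 1)` form the
interface between the worlds `k` and `k + 1`.
-/

set_option autoImplicit false

namespace Pool.Agent.Helper63.FN

open Finset
open Pool.Agent.Helper53.WR
open Pool.Agent.Helper53.FM (blockMax)

/-- The exceptional blocks below `J`: the blocks of the interfaces and the blocks that come from
the exceptional blocks `B k` of the top sets. -/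
def badG (Z Y b : ℕ → ℕ) (B : ℕ → Finset ℕ) (J : ℕ) (Ks : Finset ℕ) : Finset ℕ :=
  (range J).filter (fun j => j ∈ range (Z 0) ∪
    Ks.biUnion (fun k => ((range 6).biUnion (fun i => (B k).image (fun t => t + b k + i))) ∪
      Ico (Y k) (Z (k + 1))))

lemma badG_card_le (Z Y b : ℕ → ℕ) (B : ℕ → Finset ℕ) (J : ℕ) (Ks : Finset ℕ) :
    (badG Z Y b B J Ks).card ≤ Z 0 + ∑ k ∈ Ks, (6 * (B k).card + (Z (k + 1) - Y k)) := by
  unfold badG
  have hsub : ∀ (U : Finset ℕ), (range J).filter (fun j => j ∈ U) ⊆ U := by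
    intro U j hj
    exact (mem_filter.1 hj).2
  refine le_trans (card_le_card (hsub _)) ?_
  refine le_trans (card_union_le _ _) ?_
  rw [card_range]
  refine Nat.add_le_add_left ?_ _
  refine le_trans card_biUnion_le ?_
  refine sum_le_sum fun k _ => ?_
  refine le_trans (card_union_le _ _) ?_
  rw [Nat.card_Ico]
  refine Nat.add_le_add_right ?_ _
  refine le_trans card_biUnion_le ?_
  refine le_trans (sum_le_card_nsmul _ _ (B k).card fun i _ => card_image_le) ?_
  rw [card_range, smul_eq_mul]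

lemma exists_between {S : ℕ → ℕ} (hS : ∀ k, k ≤ S k) {j : ℕ} (hj : S 0 ≤ j) :
    ∃ k, S k ≤ j ∧ j < S (k + 1) := by
  classical
  have hex : ∃ k, j < S (k + 1) := ⟨j, by have := hS (j + 1); omega⟩
  have h2 := Nat.find_spec hex
  refine ⟨Nat.find hex, ?_, h2⟩
  by_contra hcon
  push Not at hcon
  have h3 : Nat.find hex ≠ 0 := by
    intro h0
    rw [h0] at hcon
    omega
  have h4 := Nat.find_min hex (m := Nat.find hex - 1) (by omega)
  apply h4
  have h5 : Nat.find hex - 1 + 1 = Nat.find hex := by omega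
  rw [h5]
  exact hcon

lemma good_of_notMem {Z Y b : ℕ → ℕ} {B : ℕ → Finset ℕ} {J : ℕ} {Ks : Finset ℕ}
    (hZ : ∀ k, k ≤ Z k) (hb : ∀ k, b k + 5 ≤ Z k) (hK : ∀ k, Z k < J → k ∈ Ks) {j : ℕ}
    (hjJ : j < J) (hj : j ∉ badG Z Y b B J Ks) :
    ∃ k ∈ Ks, Z k ≤ j ∧ j < Y k ∧ ∀ i, i ≤ 5 → j - b k - i ∉ B k := by
  unfold badG at hj
  rw [mem_filter, mem_range, not_and, mem_union, not_or, mem_range, mem_biUnion] at hj
  obtain ⟨hj1, hj2⟩ := hj hjJ
  push Not at hj1 hj2
  obtain ⟨k, hk1, hk2⟩ := exists_between hZ hj1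
  have hkJ : k ∈ Ks := hK k (by omega)
  have h2 := hj2 k hkJ
  rw [mem_union, not_or, mem_biUnion, mem_Ico, not_and] at h2
  obtain ⟨h3, h4⟩ := h2
  push Not at h3 h4
  have h5 : j < Y k := by
    by_contra hc
    push Not at hc
    have := h4 hc
    omega
  refine ⟨k, hkJ, hk1, h5, ?_⟩
  intro i hi hB
  have h6 := h3 i (mem_range.2 (by omega))
  apply h6
  rw [mem_image]
  refine ⟨j - b k - i, hB, ?_⟩
  have g1 := hb k
  omega

lemma sum_shift_le (g : ℕ → ℕ) (S : Finset ℕ) (b D : ℕ) (hS : ∀ j ∈ S, b ≤ j ∧ j - b < D) :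
    ∑ j ∈ S, g (j - b) ≤ ∑ i ∈ range D, g i := by
  have hinj : Set.InjOn (fun j => j - b) (S : Set ℕ) := by
    intro x hx y hy hxy
    have h1 := (hS x hx).1
    have h2 := (hS y hy).1
    simp only at hxy
    omega
  calc ∑ j ∈ S, g (j - b) = ∑ i ∈ S.image (fun j => j - b), g i :=
        (sum_image (f := g) hinj).symm
    _ ≤ ∑ i ∈ range D, g i := by
        apply sum_le_sum_of_subset
        intro i hi
        obtain ⟨j, hj, rfl⟩ := mem_image.1 hi
        exact mem_range.2 (hS j hj).2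

/-- The sum of the block maxima of a tower: `M` bounds all block maxima below `J`, and the maxima
of the good blocks of world `k` are at most `∑ l < 6, F * g k (j - b k - l) + t k (j - s k)`. -/
lemma sum_blockMax_le {A : Set ℕ} {Z Y b s : ℕ → ℕ} {g t : ℕ → ℕ → ℕ} {F M J : ℕ} {D : ℕ → ℕ}
    (hZ : ∀ k, k ≤ Z k) (hb : ∀ k, b k + 5 ≤ Z k) (hs : ∀ k, s k ≤ Z k)
    (hD : ∀ k j, Z k ≤ j → j < Y k → j - b k < D k)
    (hM : ∀ j, j < J → blockMax A j ≤ M)
    (hprof : ∀ k j, Z k ≤ j → j < Y k →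
      blockMax A j ≤ F * (∑ l ∈ range 6, g k (j - (b k + l))) + t k (j - s k))
    {Ks : Finset ℕ} (hK : ∀ k, Z k < J → k ∈ Ks) :
    ∑ j ∈ range J, blockMax A j ≤
      (badG Z Y b (fun _ => ∅) J Ks).card * M +
      ∑ k ∈ Ks, (F * (6 * ∑ i ∈ range (D k), g k i) + ∑ d ∈ range J, t k d) := by
  classical
  set E := badG Z Y b (fun _ => ∅) J Ks with hE
  let P : ℕ → ℕ → Prop := fun k j => Z k ≤ j ∧ j < Y k
  let H : ℕ → ℕ → ℕ := fun k j => F * (∑ l ∈ range 6, g k (j - (b k + l))) + t k (j - s k)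
  have hmain : ∀ j ∈ range J, blockMax A j ≤ (if j ∈ E then M else 0) +
      ∑ k ∈ Ks, (if P k j then H k j else 0) := by
    intro j hj
    have hjJ := mem_range.1 hj
    by_cases hjE : j ∈ E
    · rw [if_pos hjE]
      exact (hM j hjJ).trans (Nat.le_add_right _ _)
    · rw [if_neg hjE, zero_add]
      obtain ⟨k, hkK, hk1, hk2, -⟩ := good_of_notMem hZ hb hK hjJ hjE
      have hP : P k j := ⟨hk1, hk2⟩
      refine le_trans ?_ (single_le_sum (f := fun k => if P k j then H k j else 0)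
        (fun _ _ => Nat.zero_le _) hkK)
      show blockMax A j ≤ if P k j then H k j else 0
      rw [if_pos hP]
      exact hprof k j hk1 hk2
  refine (sum_le_sum hmain).trans ?_
  rw [sum_add_distrib]
  refine Nat.add_le_add ?_ ?_
  · rw [← sum_filter, sum_const, smul_eq_mul]
    refine Nat.mul_le_mul_right _ (card_le_card ?_)
    intro j hj
    exact (mem_filter.1 hj).2
  · rw [sum_comm]
    refine sum_le_sum fun k _ => ?_
    rw [← sum_filter]
    set S := (range J).filter (fun j => P k j) with hS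
    have hSm : ∀ j ∈ S, j < J ∧ Z k ≤ j ∧ j < Y k := by
      intro j hj
      have := mem_filter.1 hj
      exact ⟨mem_range.1 this.1, this.2.1, this.2.2⟩
    have h1 : ∑ j ∈ S, (∑ l ∈ range 6, g k (j - (b k + l)))
        ≤ 6 * ∑ i ∈ range (D k), g k i := by
      rw [sum_comm]
      calc ∑ l ∈ range 6, ∑ j ∈ S, g k (j - (b k + l))
          ≤ ∑ l ∈ range 6, ∑ i ∈ range (D k), g k i := by
            refine sum_le_sum fun l hl => ?_
            refine sum_shift_le (g k) S _ _ fun j hj => ?_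
            obtain ⟨g1, g2, g3⟩ := hSm j hj
            have g4 := mem_range.1 hl
            have g5 := hb k
            have g6 := hD k j g2 g3
            omega
        _ = 6 * ∑ i ∈ range (D k), g k i := by rw [sum_const, card_range, smul_eq_mul]
    have h2 : ∑ j ∈ S, t k (j - s k) ≤ ∑ d ∈ range J, t k d := by
      refine sum_shift_le _ S _ J fun j hj => ?_
      obtain ⟨g1, g2, g3⟩ := hSm j hj
      have g4 := hs k
      omega
    calc ∑ j ∈ S, H k j
        = F * ∑ j ∈ S, (∑ l ∈ range 6, g k (j - (b k + l))) + ∑ j ∈ S, t k (j - s k) := by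
          simp only [H]
          rw [sum_add_distrib, mul_sum]
      _ ≤ _ := Nat.add_le_add (Nat.mul_le_mul_left _ h1) h2

end Pool.Agent.Helper63.FN
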