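import Pool.Agent.Helper48.WR.FinStep
import Pool.Agent.Helper63.FN.Thin

/-!
# Project FN, D2: the infinite theorem
-/

set_option autoImplicit false

namespace Pool.Agent.Helper63.FN

open Filter Finset
open Pool.Agent.Helper53.WR
open Pool.Agent.Helper53.FM (BCov blockMax)
open Pool.Agent.Helper63.WR2
open Pool.Agent.Helper48.FB (Cs Fs)
open Pool.Agent.Helper74.FN
open Pool.Agent.Helper63.FM (const_mul_w_le)

noncomputable section

variable {c1 a0 : ℕ}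

lemma exists_tops {s0 c0 : ℕ} (H : ∀ a, a0 ≤ a → CondN c0 s0 a)
    (hfin : ∀ s, s0 ≤ s → ∀ J : ℕ, 100 ≤ J → 14 * Nat.log 2 J ≤ s ^ 2 →
      ∃ (T : Finset ℕ) (T' B : ℕ → Finset ℕ) (g : ℕ → ℕ),
        NTop J (Cs * (J + 1)) (c0 * s) (2 ^ s) (fun R => (R + 1) * 2 ^ (c0 * s)) g T T' B ∧
        ∑ j ∈ range J, g j ≤ 2 ^ (c0 * s) * J ∧
        ∀ R, (B R).card * (R + 1) ≤ 2 ^ (c0 * s) * J ∧ ∀ j ∈ B R, j < J) (k : ℕ) :
    ∃ (T : Finset ℕ) (T' B : ℕ → Finset ℕ) (g : ℕ → ℕ),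
      NTop (laT (uS a0) k) (Fs (uS a0) k) (wN c0 a0 k) (cN a0 k)
        (fun R => (R + 1) * 2 ^ (c0 * (4 * sS a0 k))) g T T' B ∧
      ∑ j ∈ range (laT (uS a0) k), g j ≤ 2 ^ (c0 * (4 * sS a0 k)) * laT (uS a0) k ∧
      ∀ R, (B R).card * (R + 1) ≤ 2 ^ (c0 * (4 * sS a0 k)) * laT (uS a0) k := by
  have hla := laT_leN H k
  have g1 : s0 ≤ 4 * sS a0 k := by
    have h3 := (condAt H k).cond.hs
    have h4 : sS a0 k = Nat.sqrt (Nat.log 2 (aS a0 k)) + 1 := rfl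
    omega
  have g2 : 100 ≤ laT (uS a0) k := by
    have h3 := luN H k
    have h5 := (tw0 H).uu' k
    unfold laT
    omega
  have g3 : 14 * Nat.log 2 (laT (uS a0) k) ≤ (4 * sS a0 k) ^ 2 := by
    have h3 : Nat.log 2 (laT (uS a0) k) ≤ Nat.log 2 (aS a0 k) := Nat.log_mono_right hla
    have h4 : Nat.log 2 (aS a0 k) < (Nat.sqrt (Nat.log 2 (aS a0 k)) + 1) ^ 2 :=
      Nat.lt_succ_sqrt' _
    have h5 : (4 * sS a0 k) ^ 2 = 16 * (Nat.sqrt (Nat.log 2 (aS a0 k)) + 1) ^ 2 := by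
      unfold sS
      ring
    omega
  obtain ⟨T, T', B, g, h1, h2, h3⟩ := hfin (4 * sS a0 k) g1 (laT (uS a0) k) g2 g3
  exact ⟨T, T', B, g, h1, h2, fun R => (h3 R).1⟩

lemma bcov_covBlock {A : Set ℕ} {c j : ℕ} (h : BCov A c j) : CovBlock A j := by
  intro n h1 h2
  obtain ⟨x, hx, y, hy, h3, -⟩ := h n h1 h2
  exact ⟨x, hx, y, hy, h3⟩

/-- Elementary facts on the starts of the worlds. -/
lemma sN_facts {s0 : ℕ} (H : ∀ a, a0 ≤ a → CondN c1 s0 a) (k : ℕ) :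
    4 * aS a0 k + 5 ≤ sN (aS a0) (uS a0) k ∧ sN (aS a0) (uS a0) (k + 1) + 100 ≤ 5 * aS a0 k ∧
      sN (aS a0) (uS a0) (k + 1) ≤ 4 * aS a0 k + laT (uS a0) k ∧
      sN (aS a0) (uS a0) k ≤ sN (aS a0) (uS a0) (k + 1) := by
  have h1 := luN H k
  have h2 := (tw0 H).ua k
  have h3 := (tw0 H).uu k
  have h4 := (tw0 H).uu' k
  have h5 := (tw0 H).step k
  unfold sN laT
  refine ⟨?_, ?_, ?_, ?_⟩ <;> omega

/-- Crude bound for the term of the older elements. -/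
lemma Rb_le (a0 k : ℕ) : Rb (aS a0) (rN a0) k ≤ 2 ^ 64 * aS a0 k := by
  cases k with
  | zero => exact le_of_eq rfl
  | succ k =>
    have h1 : aS a0 k ≤ aS a0 (k + 1) := aS_mono a0 (Nat.le_succ k)
    have h2 : aS a0 k / rN a0 k ≤ aS a0 k := Nat.div_le_self _ _
    show 2 ^ 63 * (aS a0 k / rN a0 k) ≤ _
    calc 2 ^ 63 * (aS a0 k / rN a0 k) ≤ 2 ^ 63 * aS a0 (k + 1) :=
          Nat.mul_le_mul_left _ (h2.trans h1)
      _ ≤ 2 ^ 64 * aS a0 (k + 1) := Nat.mul_le_mul_right _ (by norm_num)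

lemma rN_succ_le {s0 : ℕ} (H : ∀ a, a0 ≤ a → CondN c1 s0 a) (k : ℕ) :
    rN a0 (k + 1) ≤ 2 * rN a0 k := by
  have h1 := one_le_rN H k
  have h2 := (tw0 H).ua k
  have h5 := (tw0 H).step k
  have h6 : aS a0 (k + 1) ≤ aS a0 k * 2 := by omega
  have h7 : Nat.log 2 (aS a0 (k + 1)) ≤ Nat.log 2 (aS a0 k) + 1 := by
    refine (Nat.log_mono_right h6).trans (le_of_eq ?_)
    exact Nat.log_mul_base (by norm_num) (by have := pos_aS H k; omega)
  unfold rN at h1 ⊢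
  omega

/-- The term of the older elements times the gain. -/
lemma Rb_mul_le {s0 : ℕ} (H : ∀ a, a0 ≤ a → CondN c1 s0 a) (k : ℕ) :
    Rb (aS a0) (rN a0) k * rN a0 k ≤ (Cs * rN a0 0 + 2 ^ 64) * aS a0 k := by
  cases k with
  | zero =>
    show Cs * aS a0 0 * rN a0 0 ≤ _
    calc Cs * aS a0 0 * rN a0 0 = (Cs * rN a0 0) * aS a0 0 := by ring
      _ ≤ _ := Nat.mul_le_mul_right _ (Nat.le_add_right _ _)
  | succ k =>
    have h1 : aS a0 k ≤ aS a0 (k + 1) := aS_mono a0 (Nat.le_succ k)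
    have h2 := rN_succ_le H k
    show 2 ^ 63 * (aS a0 k / rN a0 k) * rN a0 (k + 1) ≤ _
    calc 2 ^ 63 * (aS a0 k / rN a0 k) * rN a0 (k + 1)
        ≤ 2 ^ 63 * (aS a0 k / rN a0 k) * (2 * rN a0 k) := Nat.mul_le_mul_left _ h2
      _ = 2 ^ 64 * (aS a0 k / rN a0 k * rN a0 k) := by ring
      _ ≤ 2 ^ 64 * aS a0 k := Nat.mul_le_mul_left _ (Nat.div_mul_le_self _ _)
      _ ≤ 2 ^ 64 * aS a0 (k + 1) := Nat.mul_le_mul_left _ h1
      _ ≤ _ := Nat.mul_le_mul_right _ (Nat.le_add_left _ _)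

lemma tN_anti {a r d d' : ℕ} (hr : 0 < r) (h : d ≤ d') : tN a r d' ≤ tN a r d := by
  unfold tN
  have : 44 * a / (r + d') ≤ 44 * a / (r + d) := Nat.div_le_div_left (by omega) (by omega)
  omega

/-- The infinite theorem from the statements of the tower and of the finite theorem. -/
theorem infinite_of
    (htower : ∀ {a u b w r c : ℕ → ℕ}, NTow a u b w r c → ∀ (f g : ℕ → ℕ → ℕ)
      (T : ℕ → Finset ℕ) (T' B : ℕ → ℕ → Finset ℕ),
      (∀ k, NTop (laT u k) (Fs u k) (w k) (c k) (f k) (g k) (T k) (T' k) (B k)) →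
      ∃ A : Set ℕ, (0 ∈ A ∧ 1 ∈ A) ∧
      (∀ k n, 2 ≤ n → n < 2 ^ sN a u k →
        ∃ x ∈ A, ∃ y ∈ A, x + y = n ∧ n ≤ 2 * c k * x ∧ n ≤ 2 * c k * y) ∧
      (∀ n, n < 2 ^ sN a u 0 → rep A n ≤ Cs * a 0) ∧
      (∀ k n, 2 ^ sN a u k ≤ n → n < 2 ^ sN a u (k + 1) →
        rep A n ≤ Rb a r k + 2 ^ 63 * (a k / r k)) ∧
      (∀ k j G, sN a u k + 21 ≤ j → j + 1 ≤ sN a u (k + 1) →
        (∀ l, l ≤ 5 → g k (j - 4 * a k - l) ≤ G) → ∀ n, 2 ^ j ≤ n → n < 2 ^ (j + 1) →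
          rep A n ≤ 4096 ^ 2 * 2592 * G
            + 2 * (4096 * (tN (a k) (r k) (j - sN a u k) * D0))) ∧
      (∀ k J W, J ≤ sN a u (k + 1) → (∀ i, i ≤ k → w i ≤ W) →
        WinB (Pool.Agent.Helper48.WR.cut A J) (4 * a 0 + 8 * u 0 + 1) (2 ^ (W + 32))
          (2 ^ 17 * a k)) ∧
      ∀ ρ v : ℕ → ℕ, (∀ k, 21 ≤ v k) → ∃ A' : Set ℕ, A' ⊆ A ∧
        (∀ n, n < 2 ^ (sN a u 0 + 21) → rep A' n = 0) ∧
        (∀ k n, 2 ^ (sN a u k + 21) ≤ n → n < 2 ^ (sN a u (k + 1) + 21) →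
          rep A' n ≤ 4096 ^ 2 * 2592 * f k (ρ k)
            + 2 * (4096 * (tN (a k) (r k) (v k) * D0))) ∧
        ∀ k j, sN a u k + 9 + v k + Nat.log 2 (c k) ≤ j → j + 1 ≤ sN a u (k + 1) →
          (∀ l, l ≤ 5 → j - 4 * a k - l ∉ B k (ρ k)) → BCov A' (2 * c k) j)
    (hfinite : ∃ c0 s0 : ℕ, ∀ s, s0 ≤ s → ∀ J : ℕ, 100 ≤ J → 14 * Nat.log 2 J ≤ s ^ 2 →
      ∃ (T : Finset ℕ) (T' B : ℕ → Finset ℕ) (g : ℕ → ℕ),
        NTop J (Cs * (J + 1)) (c0 * s) (2 ^ s) (fun R => (R + 1) * 2 ^ (c0 * s)) g T T' B ∧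
        ∑ j ∈ range J, g j ≤ 2 ^ (c0 * s) * J ∧
        ∀ R, (B R).card * (R + 1) ≤ 2 ^ (c0 * s) * J ∧ ∀ j ∈ B R, j < J) :
    ∃ (A : Set ℕ) (C : ℝ), (∀ n, ∃ x ∈ A, ∃ y ∈ A, x + y = n) ∧
    (∀ j : ℕ, 2 ≤ j → (blockMax A j : ℝ) ≤ C * (j / Real.log j)) ∧
    (∀ J : ℕ, 2 ≤ J → ∑ j ∈ range J, (blockMax A j : ℝ) ≤ J * Real.exp (C * √(Real.log J))) ∧
    ∀ ρ : ℝ, 0 ≤ ρ → ρ < 1 → ∃ A' : Set ℕ, A' ⊆ A ∧
      (∀ l n : ℕ, 2 ≤ l → n < 2 ^ l →
        (rep A' n : ℝ) ≤ (l : ℝ) ^ ρ * Real.exp (C * √(Real.log l))) ∧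
      ∀ᶠ J : ℕ in atTop,
        (badCount A' J : ℝ) ≤ (J : ℝ) ^ (1 - ρ) * Real.exp (-√(Real.log J)) := by
  classical
  obtain ⟨c0, s0, hfin⟩ := hfinite
  obtain ⟨a0, H⟩ := eventually_atTop.1 (eventually_condN c0 s0)
  have hT := ntow_inf H
  have hsN := sN_facts H
  choose T T' B g hT1 hg hB using exists_tops H hfin
  obtain ⟨A, h01, hcov, hrep0, hrep, hprof, -, hthin⟩ := htower hT
    (fun k R => (R + 1) * 2 ^ (c0 * (4 * sS a0 k))) g T T' B hT1
  set z : ℕ → ℕ := sN (aS a0) (uS a0) with hz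
  have hkz : ∀ k, k ≤ z k := fun k => by
    have h1 := Pool.Agent.Helper63.WR2.le_aS (fun a h => (H a h).cond) k
    have h2 := (hsN k).1
    omega
  -- the bounds for all blocks
  obtain ⟨C1, hC10, hsupj⟩ := sup_of H (A := A) (z := z) (D := Cs * rN a0 0 + 2 ^ 65)
    (D0 := Cs * aS a0 0) (fun k => by have := (hsN k).1; omega)
    (fun k => by have := (hsN k).2.1; omega) hrep0 (fun k n h1 h2 => by
      have h3 := hrep k n h1 h2
      have h4 := Rb_mul_le H k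
      calc rep A n * rN a0 k
          ≤ (Rb (aS a0) (rN a0) k + 2 ^ 63 * (aS a0 k / rN a0 k)) * rN a0 k :=
            Nat.mul_le_mul_right _ h3
        _ = Rb (aS a0) (rN a0) k * rN a0 k + 2 ^ 63 * (aS a0 k / rN a0 k * rN a0 k) := by ring
        _ ≤ (Cs * rN a0 0 + 2 ^ 64) * aS a0 k + 2 ^ 63 * aS a0 k :=
            Nat.add_le_add h4 (Nat.mul_le_mul_left _ (Nat.div_mul_le_self _ _))
        _ = (Cs * rN a0 0 + (2 ^ 64 + 2 ^ 63)) * aS a0 k := by ring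
        _ ≤ _ := Nat.mul_le_mul_right _ (by norm_num))
  have hM : ∀ j, blockMax A j ≤ (2 ^ 65 * aS a0 0) * (j + 1) := by
    intro j
    have hpos0 := pos_aS H 0
    unfold blockMax
    refine Finset.sup_le fun n hn => ?_
    obtain ⟨g1, g2⟩ := mem_Ico.1 hn
    rcases Nat.lt_or_ge n (2 ^ z 0) with h0 | h0
    · refine (hrep0 n h0).trans ?_
      have h1 : Cs ≤ 2 ^ 65 := by
        unfold Cs
        norm_num
      calc Cs * aS a0 0 ≤ 2 ^ 65 * aS a0 0 := Nat.mul_le_mul_right _ h1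
        _ = (2 ^ 65 * aS a0 0) * 1 := (mul_one _).symm
        _ ≤ _ := Nat.mul_le_mul_left _ (by omega)
    · obtain ⟨k, hk1, hk2⟩ := exists_between (S := fun k => 2 ^ z k)
        (fun k => (hkz k).trans Nat.lt_two_pow_self.le) h0
      have h1 := hrep k n hk1 hk2
      have h2 := Rb_le a0 k
      have h3 : aS a0 k / rN a0 k ≤ aS a0 k := Nat.div_le_self _ _
      have h4 : z k < j + 1 := by
        have h5 : 2 ^ z k < 2 ^ (j + 1) := hk1.trans_lt g2
        exact (Nat.pow_lt_pow_iff_right (by norm_num)).1 h5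
      have h5 : aS a0 k ≤ j + 1 := by
        have := (hsN k).1
        omega
      calc rep A n ≤ Rb (aS a0) (rN a0) k + 2 ^ 63 * (aS a0 k / rN a0 k) := h1
        _ ≤ 2 ^ 64 * aS a0 k + 2 ^ 63 * aS a0 k :=
            Nat.add_le_add h2 (Nat.mul_le_mul_left _ h3)
        _ = (2 ^ 64 + 2 ^ 63) * aS a0 k := by ring
        _ ≤ 2 ^ 65 * aS a0 k := Nat.mul_le_mul_right _ (by norm_num)
        _ ≤ 2 ^ 65 * (j + 1) := Nat.mul_le_mul_left _ h5
        _ ≤ (2 ^ 65 * aS a0 0) * (j + 1) := by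
            apply Nat.mul_le_mul_right
            exact Nat.le_mul_of_pos_right _ hpos0
  -- the sum of the block maxima
  have hsum := fun (J : ℕ) (hJ : 1 ≤ J) => sum_bound H (c0 := c0) (F := 4096 ^ 2 * 2592)
    (D := 2 ^ 65 * aS a0 0) (E := 2 * (4096 * D0)) (g := g) (A := A) (Z := fun k => z k + 21)
    (Y := fun k => z (k + 1)) (s := z) (fun k => by have := (hsN k).1; omega)
    (fun k => Nat.le_add_right _ _) (fun k => by omega) (fun k => (hsN k).2.2.1) hM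
    (fun k j h1 h2 => by
      unfold blockMax
      refine Finset.sup_le fun n hn => ?_
      obtain ⟨g1, g2⟩ := mem_Ico.1 hn
      refine (hprof k j (∑ l ∈ range 6, g k (j - (4 * aS a0 k + l))) h1 h2
        (fun l hl => ?_) n g1 g2).trans (le_of_eq ?_)
      · have h3 : j - 4 * aS a0 k - l = j - (4 * aS a0 k + l) := by omega
        rw [h3]
        exact single_le_sum (f := fun l => g k (j - (4 * aS a0 k + l))) (fun _ _ => Nat.zero_le _)
          (mem_range.2 (by omega))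
      · ring) hg (J := J) hJ
  set E1 : ℝ := (((z 0 + 21 : ℕ) : ℝ) + 704) * (2 * ((2 ^ 65 * aS a0 0 : ℕ) : ℝ)) +
    11 * (6 * ((4096 ^ 2 * 2592 : ℕ) : ℝ) * 2 ^ (4 * c0) +
      56 * ((2 * (4096 * D0) : ℕ) : ℝ)) with hE1
  have hE11 : 1 ≤ E1 := by
    have g1 : (0 : ℝ) ≤ (((z 0 + 21 : ℕ) : ℝ) + 704) * (2 * ((2 ^ 65 * aS a0 0 : ℕ) : ℝ)) := by
      positivity
    have g2 : (1 : ℝ) ≤ 2 ^ (4 * c0) := one_le_pow₀ (by norm_num)
    have g3 : (0 : ℝ) ≤ ((2 * (4096 * D0) : ℕ) : ℝ) := Nat.cast_nonneg _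
    have g4 : (1 : ℝ) ≤ ((4096 ^ 2 * 2592 : ℕ) : ℝ) := by norm_num
    have g5 : (1 : ℝ) ≤ ((4096 ^ 2 * 2592 : ℕ) : ℝ) * 2 ^ (4 * c0) :=
      one_le_mul_of_one_le_of_one_le g4 g2
    rw [hE1]
    linarith
  set CTc : ℝ := CT c0 (4096 ^ 2 * 2592) (2 * (4096 * D0)) with hCTc
  have hCT : 1 ≤ CTc := one_le_CT _ _ _
  set C2 : ℝ := ((4 * c0 + 3 : ℕ) : ℝ) + 2 * Real.log E1 with hC2
  set C3 : ℝ := ((8 * c0 + 4 : ℕ) : ℝ) + 2 * Real.log CTc with hC3
  have hC20 : 0 ≤ C2 := by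
    have := Real.log_nonneg hE11
    positivity
  have hC30 : 0 ≤ C3 := by
    have := Real.log_nonneg hCT
    positivity
  refine ⟨A, 2 * C1 + C2 + C3, ?_, ?_, ?_, ?_⟩
  · intro n
    rcases Nat.lt_or_ge n 2 with hn | hn
    · interval_cases n
      · exact ⟨0, h01.1, 0, h01.1, rfl⟩
      · exact ⟨0, h01.1, 1, h01.2, rfl⟩
    · have h1 : n < 2 ^ z n := by
        calc n < 2 ^ n := Nat.lt_two_pow_self
          _ ≤ _ := Nat.pow_le_pow_right (by norm_num) (hkz n)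
      obtain ⟨x, hx, y, hy, hxy, -⟩ := hcov n n hn h1
      exact ⟨x, hx, y, hy, hxy⟩
  · intro j hj
    have hj2 : (2 : ℝ) ≤ j := by exact_mod_cast hj
    have h1 := hsupj j
    have h2 : 0 < Real.log j := Real.log_pos (by linarith)
    have h3 : Real.log j ≤ Real.log (j + 2) := Real.log_le_log (by linarith) (by linarith)
    have h4 : (blockMax A j : ℝ) * Real.log j ≤ 2 * C1 * j := by
      calc (blockMax A j : ℝ) * Real.log j ≤ (blockMax A j : ℝ) * Real.log (j + 2) :=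
            mul_le_mul_of_nonneg_left h3 (Nat.cast_nonneg _)
        _ ≤ C1 * (j + 1) := h1
        _ ≤ C1 * (2 * j) := mul_le_mul_of_nonneg_left (by linarith) hC10
        _ = _ := by ring
    have h5 : (blockMax A j : ℝ) ≤ 2 * C1 * (j / Real.log j) := by
      rw [← mul_div_assoc, le_div_iff₀ h2]
      exact h4
    refine h5.trans ?_
    apply mul_le_mul_of_nonneg_right _ (div_nonneg (by linarith) h2.le)
    linarith
  · intro J hJ
    have hJ2 : (2 : ℝ) ≤ J := by exact_mod_cast hJ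
    have hJ0 : (0 : ℝ) ≤ J := by linarith
    have h2 := hsum J (by omega)
    rw [Nat.cast_sum] at h2
    refine h2.trans ?_
    calc E1 * w J ^ (4 * c0 + 3) * J = J * (E1 * w J ^ (4 * c0 + 3)) := by ring
      _ ≤ J * Real.exp (C2 * √(Real.log J)) :=
          mul_le_mul_of_nonneg_left (const_mul_w_le hE11 (4 * c0 + 3) hJ2) hJ0
      _ ≤ J * Real.exp ((2 * C1 + C2 + C3) * √(Real.log J)) := by
          apply mul_le_mul_of_nonneg_left _ hJ0
          apply Real.exp_le_exp.2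
          apply mul_le_mul_of_nonneg_right _ (Real.sqrt_nonneg _)
          linarith
  · intro ρ hρ0 hρ1
    obtain ⟨A', hsub, hzero, hrep', hgood⟩ := hthin (fun k => rI ρ c0 a0 k)
      (fun k => vI ρ a0 k + 21) (fun k => Nat.le_add_left _ _)
    refine ⟨A', hsub, ?_, ?_⟩
    · intro l n hl hn
      have hl2 : (2 : ℝ) ≤ l := by exact_mod_cast hl
      rcases lt_or_ge n (2 ^ (z 0 + 21)) with h0 | h0
      · rw [hzero n h0, Nat.cast_zero]
        positivity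
      · obtain ⟨k, hk1, hk2⟩ := exists_between (S := fun k => 2 ^ (z k + 21))
          (fun k => by
            have h1 := hkz k
            have h2 : z k + 21 < 2 ^ (z k + 21) := Nat.lt_two_pow_self
            show k ≤ 2 ^ (z k + 21)
            omega) h0
        have h3 := hrep' k n hk1 hk2
        have h4 : z k + 21 < l := by
          have h5 : 2 ^ (z k + 21) < 2 ^ l := hk1.trans_lt hn
          exact (Nat.pow_lt_pow_iff_right (by norm_num)).1 h5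
        have h6 : ((aS a0 k : ℕ) : ℝ) ≤ l := by
          have : aS a0 k ≤ l := by
            have := (hsN k).1
            omega
          exact_mod_cast this
        have hx1 : (1 : ℝ) ≤ ((aS a0 k : ℕ) : ℝ) := by exact_mod_cast pos_aS H k
        have h7 : (rep A' n : ℝ) ≤ CTc *
            (((aS a0 k : ℕ) : ℝ) ^ ρ * w (aS a0 k) ^ (8 * c0 + 4)) := by
          refine le_trans ?_ (thin_rep H hρ0 c0 (4096 ^ 2 * 2592) (2 * (4096 * D0)) k)
          have h8 : tN (aS a0 k) (rN a0 k) (vI ρ a0 k + 21) ≤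
              tN (aS a0 k) (rN a0 k) (vI ρ a0 k) :=
            tN_anti (by have := one_le_rN H k; omega) (Nat.le_add_right _ _)
          have h9 : rep A' n ≤ 4096 ^ 2 * 2592 *
              ((rI ρ c0 a0 k + 1) * 2 ^ (c0 * (4 * sS a0 k))) +
                2 * (4096 * D0) * tN (aS a0 k) (rN a0 k) (vI ρ a0 k) := by
            refine h3.trans (Nat.add_le_add_left ?_ _)
            calc 2 * (4096 * (tN (aS a0 k) (rN a0 k) (vI ρ a0 k + 21) * D0))
                = 2 * (4096 * D0) * tN (aS a0 k) (rN a0 k) (vI ρ a0 k + 21) := by ring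
              _ ≤ _ := Nat.mul_le_mul_left _ h8
          exact_mod_cast h9
        have h8 : ((aS a0 k : ℕ) : ℝ) ^ ρ ≤ (l : ℝ) ^ ρ :=
          Real.rpow_le_rpow (by linarith) h6 hρ0
        have h9 : w (aS a0 k) ^ (8 * c0 + 4) ≤ w l ^ (8 * c0 + 4) :=
          pow_le_pow_left₀ (w_pos _).le (w_mono (by linarith) h6) _
        have hlr : 0 ≤ (l : ℝ) ^ ρ := by positivity
        calc (rep A' n : ℝ) ≤ CTc * (((aS a0 k : ℕ) : ℝ) ^ ρ * w (aS a0 k) ^ (8 * c0 + 4)) := h7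
          _ ≤ CTc * ((l : ℝ) ^ ρ * w l ^ (8 * c0 + 4)) := by
              apply mul_le_mul_of_nonneg_left _ (by linarith)
              exact mul_le_mul h8 h9 (pow_nonneg (w_pos _).le _) hlr
          _ = (l : ℝ) ^ ρ * (CTc * w l ^ (8 * c0 + 4)) := by ring
          _ ≤ (l : ℝ) ^ ρ * Real.exp (C3 * √(Real.log l)) :=
              mul_le_mul_of_nonneg_left (const_mul_w_le hCT (8 * c0 + 4) hl2) hlr
          _ ≤ (l : ℝ) ^ ρ * Real.exp ((2 * C1 + C2 + C3) * √(Real.log l)) := by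
              apply mul_le_mul_of_nonneg_left _ hlr
              apply Real.exp_le_exp.2
              exact mul_le_mul_of_nonneg_right (by linarith) (Real.sqrt_nonneg _)
    · have hcnt := thin_count H hρ0 hρ1 (B := fun k => B k (rI ρ c0 a0 k))
        (Z := fun k => z k + 30) (Y := fun k => z (k + 1)) (fun k => by omega)
        (fun k => hB k (rI ρ c0 a0 k))
      filter_upwards [hcnt] with J hJ
      have h1 : badCount A' J ≤ (badG (fun k => z k + 30 + (vI ρ a0 k + 4 * sS a0 k))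
          (fun k => z (k + 1)) (fun k => 4 * aS a0 k) (fun k => B k (rI ρ c0 a0 k)) J
          (KsI a0 J)).card := by
        unfold badCount
        apply card_le_card
        intro j hj
        rw [mem_filter, mem_range] at hj
        by_contra hcon
        obtain ⟨k, -, g1, g2, g3⟩ := good_of_notMem
          (fun k => by have := hkz k; omega) (fun k => by have := (hsN k).1; omega)
          (fun k hk => mem_KsI H (by have := (hsN k).1; omega)) hj.1 hcon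
        apply hj.2
        refine bcov_covBlock (c := 2 * cN a0 k) (hgood k j ?_ g2 g3)
        have h2 : Nat.log 2 (cN a0 k) = 4 * sS a0 k := Nat.log_pow (by norm_num) _
        show z k + 9 + (vI ρ a0 k + 21) + Nat.log 2 (cN a0 k) ≤ j
        omega
      have h2 : (J : ℝ) ^ (1 - ρ) / w J = (J : ℝ) ^ (1 - ρ) * Real.exp (-√(Real.log J)) := by
        unfold w
        rw [Real.exp_neg, div_eq_mul_inv]
      rw [← h2]
      refine le_trans ?_ hJ
      exact_mod_cast h1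

end

end Pool.Agent.Helper63.FN
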