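import Pool.Agent.Helper74.FN.St.Stubs
import Pool.Agent.Helper63.FN.Infinite

/-!
# Project FN, D2: the infinite theorem from the stubs
-/

set_option autoImplicit false

namespace Pool.Agent.Helper63.FN

open Filter Finset
open Pool.Agent.Helper53.WR
open Pool.Agent.Helper53.FM (blockMax)

/-- FN-D2 (infinite theorem). -/
theorem infinite_thm4 : ∃ (A : Set ℕ) (C : ℝ), (∀ n, ∃ x ∈ A, ∃ y ∈ A, x + y = n) ∧
    (∀ j : ℕ, 2 ≤ j → (blockMax A j : ℝ) ≤ C * (j / Real.log j)) ∧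
    (∀ J : ℕ, 2 ≤ J → ∑ j ∈ range J, (blockMax A j : ℝ) ≤ J * Real.exp (C * √(Real.log J))) ∧
    ∀ ρ : ℝ, 0 ≤ ρ → ρ < 1 → ∃ A' : Set ℕ, A' ⊆ A ∧
      (∀ l n : ℕ, 2 ≤ l → n < 2 ^ l →
        (rep A' n : ℝ) ≤ (l : ℝ) ^ ρ * Real.exp (C * √(Real.log l))) ∧
      ∀ᶠ J : ℕ in atTop,
        (badCount A' J : ℝ) ≤ (J : ℝ) ^ (1 - ρ) * Real.exp (-√(Real.log J)) :=
  infinite_of (fun h f g T T' B hT => Pool.Agent.Helper74.FN.St.ntower h f g T T' B hT)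
    Pool.Agent.Helper74.FN.St.finite_thm4

end Pool.Agent.Helper63.FN
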