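import Pool.Agent.Helper74.FN.Defs
import Pool.Agent.Helper63.WR2.Inf

/-!
# Project FN, D2, part 1: the parameters of the infinite tower
-/

set_option autoImplicit false

namespace Pool.Agent.Helper63.FN

open Filter Finset
open Pool.Agent.Helper53.WR
open Pool.Agent.Helper63.WR2

noncomputable section

/-- The conditions that have to hold for all large numbers `a`. -/
structure CondN (c1 s0 : ℕ) (a : ℕ) : Prop where
  cond : Cond 1 (52000 + 2000 * c1) s0 a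
  w42 : 2 ^ 42 * (Nat.log 2 a : ℝ) ≤ w a
  hr : 8 * (c1 * (4 * (Nat.sqrt (Nat.log 2 a) + 1)) + 125) ≤ 3 * Nat.log 2 a

lemma eventually_log_le_w (C : ℝ) : ∀ᶠ x : ℝ in atTop, C * Real.log x ≤ w x := by
  have h1 := Real.tendsto_exp_div_pow_atTop 2
  have h2 := tendsto_sqrt_log.eventually (h1.eventually_ge_atTop C)
  filter_upwards [h2, tendsto_sqrt_log.eventually_ge_atTop 1, eventually_ge_atTop (1 : ℝ)]
    with x h2 h3 hx
  have hl : 0 ≤ Real.log x := Real.log_nonneg hx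
  have h4 : √(Real.log x) ^ 2 = Real.log x := Real.sq_sqrt hl
  have h5 : (0 : ℝ) < √(Real.log x) ^ 2 := by positivity
  rw [le_div_iff₀ h5, h4] at h2
  exact h2

lemma eventually_condN (c1 s0 : ℕ) : ∀ᶠ a : ℕ in atTop, CondN c1 s0 a := by
  have hcast : Tendsto (fun a : ℕ => (a : ℝ)) atTop atTop := tendsto_natCast_atTop_atTop
  have h1 := eventually_cond (p := 1) one_pos (52000 + 2000 * c1) s0
  have h2 := hcast.eventually (eventually_log_le_w (2 ^ 43))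
  filter_upwards [h1, h2, eventually_ge_atTop (2 ^ ((32 * c1 + 2000) ^ 2))] with a h1 h2 h3
  have hpos := h1.pos
  have hla : 0 ≤ Real.log a := Real.log_nonneg (by exact_mod_cast hpos)
  refine ⟨h1, ?_, ?_⟩
  · have h9 := natlog_mul_log (a := a) (by omega)
    have h10 : (0.6931471803 : ℝ) < Real.log 2 := Real.log_two_gt_d9
    have h11 : (Nat.log 2 a : ℝ) ≤ 2 * Real.log a := by
      have : (0 : ℝ) ≤ Nat.log 2 a := Nat.cast_nonneg _
      nlinarith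
    calc 2 ^ 42 * (Nat.log 2 a : ℝ) ≤ 2 ^ 42 * (2 * Real.log a) :=
          mul_le_mul_of_nonneg_left h11 (by norm_num)
      _ = 2 ^ 43 * Real.log a := by ring
      _ ≤ w a := h2
  · set L := Nat.log 2 a with hL
    have h4 : (32 * c1 + 2000) ^ 2 ≤ L := Nat.le_log_of_pow_le (by norm_num) h3
    have h5 : 32 * c1 + 2000 ≤ Nat.sqrt L := by
      rw [Nat.le_sqrt']
      exact h4
    have h6 : Nat.sqrt L ^ 2 ≤ L := Nat.sqrt_le' L
    set t := Nat.sqrt L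
    have h7 : t * (32 * c1 + 2000) ≤ t ^ 2 := by
      rw [sq]
      exact Nat.mul_le_mul_left _ h5
    have h8 : c1 ≤ c1 * t := Nat.le_mul_of_pos_right _ (by omega)
    nlinarith

/-- The window parameter. -/
def wN (c1 a0 k : ℕ) : ℕ := c1 * (4 * sS a0 k)

/-- The balance parameter. -/
def cN (a0 k : ℕ) : ℕ := 2 ^ (4 * sS a0 k)

/-- The loss parameter. -/
def bN (a0 k : ℕ) : ℕ := Nat.log 2 (aS a0 k) / 2 + 41

/-- The gain parameter. -/
def rN (a0 k : ℕ) : ℕ := Nat.log 2 (aS a0 k) / 8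

variable {c1 s0 a0 : ℕ}

lemma condAt (H : ∀ a, a0 ≤ a → CondN c1 s0 a) (k : ℕ) : CondN c1 s0 (aS a0 k) :=
  H _ (a0_le a0 k)

lemma pos_aS (H : ∀ a, a0 ≤ a → CondN c1 s0 a) (k : ℕ) : 1 ≤ aS a0 k := (condAt H k).cond.pos

lemma log_mono (a0 : ℕ) {k l : ℕ} (h : k ≤ l) : Nat.log 2 (aS a0 k) ≤ Nat.log 2 (aS a0 l) :=
  Nat.log_mono_right (aS_mono a0 h)

lemma sS_mono (a0 : ℕ) {k l : ℕ} (h : k ≤ l) : sS a0 k ≤ sS a0 l := by
  unfold sS
  exact Nat.add_le_add_right (Nat.sqrt_le_sqrt (log_mono a0 h)) _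

lemma tw0 (H : ∀ a, a0 ≤ a → CondN c1 s0 a) :
    Tow (aS a0) (uS a0) (eS 1 a0) (tS 1 a0) (kS a0) (fS 0 (52000 + 2000 * c1) a0) :=
  tow (s0 := s0) (fun a h => (H a h).cond) one_pos le_rfl zero_le_one

lemma laT_leN (H : ∀ a, a0 ≤ a → CondN c1 s0 a) (k : ℕ) : laT (uS a0) k ≤ aS a0 k :=
  laT_le (p := 1) (c := 52000 + 2000 * c1) (s0 := s0) (fun a h => (H a h).cond) le_rfl k

lemma one_le_log (H : ∀ a, a0 ≤ a → CondN c1 s0 a) (k : ℕ) : 333 ≤ Nat.log 2 (aS a0 k) := by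
  have h1 := (condAt H k).hr
  omega

lemma one_le_rN (H : ∀ a, a0 ≤ a → CondN c1 s0 a) (k : ℕ) : 41 ≤ rN a0 k := by
  have h1 := one_le_log H k
  unfold rN
  omega

/-- `2 ^ 42 * u * r ≤ a` -/
lemma urN (H : ∀ a, a0 ≤ a → CondN c1 s0 a) (k : ℕ) :
    2 ^ 42 * (uS a0 k * rN a0 k) ≤ aS a0 k := by
  have hc := condAt H k
  have hpsi := hc.cond.hPsi
  have h1 : (uS a0 k : ℝ) ≤ Psi (aS a0 k) := Nat.floor_le (by linarith)
  have h2 := hc.w42
  have h3 : Psi (aS a0 k) * w (aS a0 k) = (aS a0 k : ℝ) := by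
    unfold Psi
    exact div_mul_cancel₀ _ (w_pos _).ne'
  have h4 : (0 : ℝ) ≤ uS a0 k := Nat.cast_nonneg _
  have h6 : (rN a0 k : ℝ) ≤ (Nat.log 2 (aS a0 k) : ℝ) := by
    exact_mod_cast Nat.div_le_self _ _
  have h7 : (2 : ℝ) ^ 42 * rN a0 k ≤ w (aS a0 k) :=
    (mul_le_mul_of_nonneg_left h6 (by norm_num)).trans h2
  have h5 : ((2 ^ 42 * (uS a0 k * rN a0 k) : ℕ) : ℝ) ≤ ((aS a0 k : ℕ) : ℝ) := by
    rw [Nat.cast_mul, Nat.cast_pow, Nat.cast_ofNat, Nat.cast_mul]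
    calc (2 : ℝ) ^ 42 * ((uS a0 k : ℝ) * rN a0 k) = uS a0 k * (2 ^ 42 * rN a0 k) := by ring
      _ ≤ Psi (aS a0 k) * w (aS a0 k) :=
          mul_le_mul h1 h7 (by positivity) (by linarith)
      _ = _ := h3
  exact_mod_cast h5

/-- `1000 * (log a + 60 + w + b) ≤ u` -/
lemma luN (H : ∀ a, a0 ≤ a → CondN c1 s0 a) (k : ℕ) :
    1000 * (Nat.log 2 (aS a0 k) + 60 + wN c1 a0 k + bN a0 k) ≤ uS a0 k := by
  have hc := (condAt H k).cond
  have h1 := hc.hlog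
  have hw1 := one_le_w (aS a0 k)
  have hx1 : (1 : ℝ) ≤ (aS a0 k : ℝ) := by exact_mod_cast hc.pos
  have h2 : Phi 1 (aS a0 k) ≤ Psi (aS a0 k) := by
    refine (Phi_le_Psi le_rfl hx1).trans ?_
    have hp := hc.hPsi
    exact div_le_self (by linarith) (one_le_pow₀ hw1)
  have h3 : Psi (aS a0 k) < (uS a0 k : ℝ) + 1 := Nat.lt_floor_add_one _
  have h4 : (((2 * (52000 + 2000 * c1) + 6) * (Nat.log 2 (aS a0 k) + 1) + 1 : ℕ) : ℝ)
      < ((uS a0 k + 1 : ℕ) : ℝ) := by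
    rw [Nat.cast_add (uS a0 k), Nat.cast_one]
    linarith
  have h5 : (2 * (52000 + 2000 * c1) + 6) * (Nat.log 2 (aS a0 k) + 1) + 1 < uS a0 k + 1 := by
    exact_mod_cast h4
  have h6 := sS_log_bound (aS a0 k)
  have h7 : c1 * sS a0 k ≤ c1 * (Nat.log 2 (aS a0 k) + 1) := Nat.mul_le_mul_left _ h6
  unfold wN bN
  set L := Nat.log 2 (aS a0 k)
  have h8 : c1 * (4 * sS a0 k) = 4 * (c1 * sS a0 k) := by ring
  have h9 : L / 2 ≤ L := Nat.div_le_self _ _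
  rw [h8]
  nlinarith

/-- `a * 2 ^ 80 ≤ 2 ^ (2 b)` -/
lemma abN (a0 k : ℕ) : aS a0 k * 2 ^ 80 ≤ 2 ^ (2 * bN a0 k) := by
  have h1 : aS a0 k < 2 ^ (Nat.log 2 (aS a0 k) + 1) := Nat.lt_pow_succ_log_self (by norm_num) _
  refine (Nat.mul_le_mul_right _ h1.le).trans ?_
  rw [← pow_add]
  refine Nat.pow_le_pow_right (by norm_num) ?_
  unfold bN
  omega

/-- `2 ^ (r + b + w + 80) ≤ a` -/
lemma muN (H : ∀ a, a0 ≤ a → CondN c1 s0 a) (k : ℕ) :
    2 ^ (rN a0 k + bN a0 k + wN c1 a0 k + 80) ≤ aS a0 k := by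
  have hc := condAt H k
  have h1 : 2 ^ Nat.log 2 (aS a0 k) ≤ aS a0 k :=
    Nat.pow_log_le_self 2 (by have := hc.cond.pos; omega)
  refine (Nat.pow_le_pow_right (by norm_num) ?_).trans h1
  have h2 := hc.hr
  have h3 : wN c1 a0 k = c1 * (4 * (Nat.sqrt (Nat.log 2 (aS a0 k)) + 1)) := rfl
  unfold rN bN
  rw [h3]
  omega

lemma bN_mono (a0 : ℕ) {k l : ℕ} (h : k ≤ l) : bN a0 k ≤ bN a0 l := by
  have := log_mono a0 h
  unfold bN
  omega

lemma rN_mono (a0 : ℕ) {k l : ℕ} (h : k ≤ l) : rN a0 k ≤ rN a0 l := by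
  have := log_mono a0 h
  unfold rN
  omega

lemma wN_mono (c1 a0 : ℕ) {k l : ℕ} (h : k ≤ l) : wN c1 a0 k ≤ wN c1 a0 l := by
  have := sS_mono a0 h
  unfold wN
  exact Nat.mul_le_mul_left _ (by omega)

lemma cN_mono (a0 : ℕ) {k l : ℕ} (h : k ≤ l) : cN a0 k ≤ cN a0 l := by
  have := sS_mono a0 h
  unfold cN
  exact Nat.pow_le_pow_right (by norm_num) (by omega)

lemma two_le_cN (a0 k : ℕ) : 2 ≤ cN a0 k := by
  unfold cN
  calc 2 = 2 ^ 1 := by norm_num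
    _ ≤ _ := Nat.pow_le_pow_right (by norm_num) (by unfold sS; omega)

/-- The tower of the infinite theorem. -/
lemma ntow_inf (H : ∀ a, a0 ≤ a → CondN c1 s0 a) :
    Pool.Agent.Helper74.FN.NTow (aS a0) (uS a0) (bN a0) (wN c1 a0) (rN a0) (cN a0) where
  step := (tw0 H).step
  uu := (tw0 H).uu
  uu' := (tw0 H).uu'
  ua := urN H
  lu := luN H
  ab := abN a0
  cr := muN H
  r1 := fun k => by
    have := one_le_rN H k
    omega
  bb := fun k => bN_mono a0 (Nat.le_succ k)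
  cc := fun k => cN_mono a0 (Nat.le_succ k)
  c2 := two_le_cN a0

end

end Pool.Agent.Helper63.FN
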