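import Pool.Agent.Helper63.FN.Sup
import Pool.Agent.Helper63.FN.Count
import Pool.Agent.Helper12.FM.A2D0
import Pool.Agent.Helper63.FM.Real

/-!
# Project FN, D2, part 3: the sum of the block maxima
-/

set_option autoImplicit false

namespace Pool.Agent.Helper63.FN

open Filter Finset
open Pool.Agent.Helper53.WR
open Pool.Agent.Helper53.FM (blockMax)
open Pool.Agent.Helper63.WR2
open Pool.Agent.Helper74.FN (tN)

noncomputable section

variable {c1 s0 a0 : ℕ}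

lemma natlog_le {a : ℕ} (ha : 1 ≤ a) : (Nat.log 2 a : ℝ) ≤ 4 * w a := by
  have h1 := natlog_mul_log (a := a) (by omega)
  have h2 := log_le_two_w (x := (a : ℝ)) (by exact_mod_cast ha)
  have h3 : (0.6931471803 : ℝ) < Real.log 2 := Real.log_two_gt_d9
  have h4 : (0 : ℝ) ≤ Nat.log 2 a := Nat.cast_nonneg _
  nlinarith

lemma index_le' (H : ∀ a, a0 ≤ a → CondN c1 s0 a) (k : ℕ) :
    (k : ℝ) ≤ 10 * w (aS a0 k) ^ 2 := by
  have h1 := index_le (p := 1) (c := 52000 + 2000 * c1) (s0 := s0) (fun a h => (H a h).cond)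
    (tw0 H) k
  have h2 := log_le_two_w (x := (aS a0 k : ℝ)) (by exact_mod_cast pos_aS H k)
  have h3 := w_pos (aS a0 k)
  nlinarith

/-- The worlds that start below `J`. -/
def KsI (a0 J : ℕ) : Finset ℕ :=
  (range (⌊10 * w J ^ 2⌋₊ + 1)).filter (fun k => 4 * aS a0 k ≤ J)

lemma w_aS_le (H : ∀ a, a0 ≤ a → CondN c1 s0 a) {J k : ℕ} (h : 4 * aS a0 k ≤ J) :
    w (aS a0 k) ≤ w J := by
  have h1 : (1 : ℝ) ≤ ((aS a0 k : ℕ) : ℝ) := by exact_mod_cast pos_aS H k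
  have h2 : ((aS a0 k : ℕ) : ℝ) ≤ (J : ℝ) := by exact_mod_cast (show aS a0 k ≤ J by omega)
  exact w_mono (by linarith) h2

lemma aS_succ_le (H : ∀ a, a0 ≤ a → CondN c1 s0 a) {J k : ℕ} (h : 4 * aS a0 k ≤ J) :
    aS a0 (k + 1) ≤ J := by
  have h1 := (tw0 H).step k
  have h2 := (tw0 H).ua k
  omega

lemma w_aS_succ_le (H : ∀ a, a0 ≤ a → CondN c1 s0 a) {J k : ℕ} (h : 4 * aS a0 k ≤ J) :
    w (aS a0 (k + 1)) ≤ w J := by
  have h1 : (1 : ℝ) ≤ ((aS a0 (k + 1) : ℕ) : ℝ) := by exact_mod_cast pos_aS H (k + 1)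
  have h2 : ((aS a0 (k + 1) : ℕ) : ℝ) ≤ (J : ℝ) := by exact_mod_cast aS_succ_le H h
  exact w_mono (by linarith) h2

lemma mem_KsI (H : ∀ a, a0 ≤ a → CondN c1 s0 a) {J k : ℕ} (h : 4 * aS a0 k ≤ J) :
    k ∈ KsI a0 J := by
  unfold KsI
  rw [mem_filter, mem_range]
  refine ⟨?_, h⟩
  have h1 := index_le' H k
  have h2 := w_aS_le H h
  have h3 := w_pos (aS a0 k)
  have h4 : (k : ℝ) ≤ 10 * w J ^ 2 := by
    refine h1.trans ?_
    apply mul_le_mul_of_nonneg_left _ (by norm_num)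
    exact pow_le_pow_left₀ h3.le h2 2
  have h5 := Nat.le_floor h4
  omega

lemma le_of_mem_KsI {J k : ℕ} (h : k ∈ KsI a0 J) : 4 * aS a0 k ≤ J := by
  unfold KsI at h
  exact (mem_filter.1 h).2

lemma card_KsI_le (J : ℕ) : ((KsI a0 J).card : ℝ) ≤ 11 * w J ^ 2 := by
  have h1 : (KsI a0 J).card ≤ ⌊10 * w J ^ 2⌋₊ + 1 := by
    unfold KsI
    calc _ ≤ (range (⌊10 * w J ^ 2⌋₊ + 1)).card := card_filter_le _ _
      _ = _ := card_range _
  have h2 : ((⌊10 * w J ^ 2⌋₊ : ℕ) : ℝ) ≤ 10 * w J ^ 2 := Nat.floor_le (by positivity)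
  have h3 : 1 ≤ w J ^ 2 := one_le_pow₀ (one_le_w _)
  have h4 : ((KsI a0 J).card : ℝ) ≤ ((⌊10 * w J ^ 2⌋₊ + 1 : ℕ) : ℝ) := by exact_mod_cast h1
  push_cast at h4
  linarith

lemma two_pow_le (H : ∀ a, a0 ≤ a → CondN c1 s0 a) (c0 k : ℕ) :
    (2 : ℝ) ^ (c0 * (4 * sS a0 k)) ≤ 2 ^ (4 * c0) * w (aS a0 k) ^ (4 * c0) := by
  have h5 := two_pow_sS (p := 1) (c := 52000 + 2000 * c1) (s0 := s0) (fun a h => (H a h).cond) k
  calc (2 : ℝ) ^ (c0 * (4 * sS a0 k)) = ((2 : ℝ) ^ sS a0 k) ^ (4 * c0) := by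
        rw [← pow_mul]
        congr 1
        ring
    _ ≤ (2 * w (aS a0 k)) ^ (4 * c0) := by
        apply pow_le_pow_left₀ (by positivity)
        linarith
    _ = _ := by rw [mul_pow]

/-- The bound for the sum of the block maxima. -/
lemma sum_bound (H : ∀ a, a0 ≤ a → CondN c1 s0 a) {c0 F D E : ℕ} {g : ℕ → ℕ → ℕ} {A : Set ℕ}
    {Z Y s : ℕ → ℕ} (hb : ∀ k, 4 * aS a0 k + 5 ≤ Z k) (hs : ∀ k, s k ≤ Z k)
    (hZY : ∀ k, Z (k + 1) ≤ Y k + 64)
    (hY : ∀ k, Y k ≤ 4 * aS a0 k + laT (uS a0) k)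
    (hM : ∀ j, blockMax A j ≤ D * (j + 1))
    (hprof : ∀ k j, Z k ≤ j → j < Y k → blockMax A j ≤
      F * (∑ l ∈ range 6, g k (j - (4 * aS a0 k + l))) +
        E * tN (aS a0 k) (rN a0 k) (j - s k))
    (hg : ∀ k, ∑ i ∈ range (laT (uS a0) k), g k i ≤ 2 ^ (c0 * (4 * sS a0 k)) * laT (uS a0) k)
    {J : ℕ} (hJ : 1 ≤ J) :
    ((∑ j ∈ range J, blockMax A j : ℕ) : ℝ) ≤
      ((((Z 0 : ℕ) : ℝ) + 704) * (2 * D) + 11 * (6 * F * 2 ^ (4 * c0) + 56 * E)) *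
        w J ^ (4 * c0 + 3) * J := by
  have hZ : ∀ k, k ≤ Z k := fun k => by
    have h1 := Pool.Agent.Helper63.WR2.le_aS (fun a h => (H a h).cond) k
    have h2 := hb k
    omega
  have h1 := sum_blockMax_le (A := A) (Z := Z) (Y := Y) (b := fun k => 4 * aS a0 k) (s := s)
    (g := g) (t := fun k d => E * tN (aS a0 k) (rN a0 k) d) (F := F) (M := D * (J + 1)) (J := J)
    (D := fun k => laT (uS a0) k) hZ hb hs
    (fun k j g1 g2 => by
      have := hY k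
      have := hb k
      omega)
    (fun j hj => (hM j).trans (Nat.mul_le_mul_left _ (by omega))) hprof
    (Ks := KsI a0 J) (fun k hk => mem_KsI H (by have := hb k; omega))
  have hX1 := one_le_w (J : ℝ)
  set X : ℝ := w J with hX
  have hX0 : 0 < X := by linarith
  have hJ1 : (1 : ℝ) ≤ J := by exact_mod_cast hJ
  have hJ0 : (0 : ℝ) ≤ J := by linarith
  have hZ0 : (0 : ℝ) ≤ ((Z 0 : ℕ) : ℝ) := Nat.cast_nonneg _
  have hX2 : 1 ≤ X ^ 2 := one_le_pow₀ hX1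
  -- the interfaces
  have hbad : ((badG Z Y (fun k => 4 * aS a0 k) (fun _ => ∅) J (KsI a0 J)).card : ℝ) ≤
      (((Z 0 : ℕ) : ℝ) + 704) * X ^ 2 := by
    have h2 := badG_card_le Z Y (fun k => 4 * aS a0 k) (fun _ => ∅) J (KsI a0 J)
    have h3 : ∑ k ∈ KsI a0 J, (6 * (∅ : Finset ℕ).card + (Z (k + 1) - Y k)) ≤
        (KsI a0 J).card * 64 := by
      refine (sum_le_card_nsmul _ _ 64 fun k _ => ?_).trans (le_of_eq (smul_eq_mul _ _))
      rw [card_empty]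
      have := hZY k
      omega
    have h4 : ((badG Z Y (fun k => 4 * aS a0 k) (fun _ => ∅) J (KsI a0 J)).card : ℝ) ≤
        ((Z 0 + (KsI a0 J).card * 64 : ℕ) : ℝ) := by exact_mod_cast h2.trans (by omega)
    refine h4.trans ?_
    have h5 := card_KsI_le (a0 := a0) J
    rw [← hX] at h5
    push_cast
    nlinarith
  have hP1 : (((badG Z Y (fun k => 4 * aS a0 k) (fun _ => ∅) J (KsI a0 J)).card *
      (D * (J + 1)) : ℕ) : ℝ) ≤ (((Z 0 : ℕ) : ℝ) + 704) * (2 * D) * X ^ 2 * J := by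
    have h2 : ((D * (J + 1) : ℕ) : ℝ) ≤ 2 * D * J := by
      push_cast
      have : (0 : ℝ) ≤ D := Nat.cast_nonneg _
      nlinarith
    rw [Nat.cast_mul]
    calc _ ≤ ((((Z 0 : ℕ) : ℝ) + 704) * X ^ 2) * (2 * D * J) :=
          mul_le_mul hbad h2 (Nat.cast_nonneg _) (by positivity)
      _ = _ := by ring
  -- one world
  have hF0 : (0 : ℝ) ≤ F := Nat.cast_nonneg _
  have hE0 : (0 : ℝ) ≤ E := Nat.cast_nonneg _
  have hterm : ∀ k ∈ KsI a0 J, ((F * (6 * ∑ i ∈ range (laT (uS a0) k), g k i) +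
      ∑ d ∈ range J, E * tN (aS a0 k) (rN a0 k) d : ℕ) : ℝ)
      ≤ (6 * F * 2 ^ (4 * c0) + 56 * E) * (X ^ (4 * c0 + 1) * J) := by
    intro k hk
    have hk4 := le_of_mem_KsI hk
    have hwk := w_aS_le H hk4
    have hak : ((4 * aS a0 k : ℕ) : ℝ) ≤ (J : ℝ) := by exact_mod_cast hk4
    have hlaT : ((laT (uS a0) k : ℕ) : ℝ) ≤ (J : ℝ) := by
      have := laT_leN H k
      exact_mod_cast (show laT (uS a0) k ≤ J by omega)
    have h2 : ((∑ i ∈ range (laT (uS a0) k), g k i : ℕ) : ℝ) ≤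
        2 ^ (4 * c0) * (X ^ (4 * c0) * J) := by
      have h3 : ((∑ i ∈ range (laT (uS a0) k), g k i : ℕ) : ℝ)
          ≤ ((2 ^ (c0 * (4 * sS a0 k)) * laT (uS a0) k : ℕ) : ℝ) := by exact_mod_cast hg k
      refine h3.trans ?_
      rw [Nat.cast_mul, Nat.cast_pow, Nat.cast_ofNat]
      have h4 : (2 : ℝ) ^ (c0 * (4 * sS a0 k)) ≤ 2 ^ (4 * c0) * X ^ (4 * c0) := by
        refine (two_pow_le H c0 k).trans ?_
        gcongr
        exact (w_pos _).le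
      calc (2 : ℝ) ^ (c0 * (4 * sS a0 k)) * ((laT (uS a0) k : ℕ) : ℝ)
          ≤ (2 ^ (4 * c0) * X ^ (4 * c0)) * J := mul_le_mul h4 hlaT (Nat.cast_nonneg _)
            (by positivity)
        _ = _ := by ring
    have h7 : ((∑ d ∈ range J, E * tN (aS a0 k) (rN a0 k) d : ℕ) : ℝ) ≤ 56 * E * (X * J) := by
      have h8 : ∑ d ∈ range J, tN (aS a0 k) (rN a0 k) d ≤
          44 * aS a0 k * (Nat.log 2 J + 1) + J :=
        Pool.Agent.Helper12.FM.sum_tD_le (aS a0 k) (rN a0 k) J (by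
          have := one_le_rN H k
          omega)
      have h9 : ((∑ d ∈ range J, tN (aS a0 k) (rN a0 k) d : ℕ) : ℝ) ≤ 56 * X * J := by
        have h10 : ((∑ d ∈ range J, tN (aS a0 k) (rN a0 k) d : ℕ) : ℝ) ≤
          ((44 * aS a0 k * (Nat.log 2 J + 1) + J : ℕ) : ℝ) := by exact_mod_cast h8
        refine h10.trans ?_
        have h11 : (Nat.log 2 J : ℝ) ≤ 4 * X := natlog_le (a := J) (by omega)
        have h12 : ((44 * aS a0 k : ℕ) : ℝ) ≤ 11 * J := by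
          push_cast at hak ⊢
          linarith
        rw [Nat.cast_add, Nat.cast_mul]
        calc ((44 * aS a0 k : ℕ) : ℝ) * ((Nat.log 2 J + 1 : ℕ) : ℝ) + (J : ℝ)
            ≤ (11 * J) * (5 * X) + X * J := by
              apply add_le_add
              · apply mul_le_mul h12 _ (Nat.cast_nonneg _) (by positivity)
                push_cast
                linarith
              · nlinarith
          _ = 56 * X * J := by ring
      rw [← mul_sum, Nat.cast_mul]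
      calc (E : ℝ) * ((∑ d ∈ range J, tN (aS a0 k) (rN a0 k) d : ℕ) : ℝ)
          ≤ E * (56 * X * J) := mul_le_mul_of_nonneg_left h9 hE0
        _ = _ := by ring
    rw [Nat.cast_add, Nat.cast_mul F, Nat.cast_mul 6]
    have hXp : X ^ (4 * c0) ≤ X ^ (4 * c0 + 1) := pow_le_pow_right₀ hX1 (by omega)
    have hXq : X ≤ X ^ (4 * c0 + 1) := by
      calc X = X ^ 1 := (pow_one X).symm
        _ ≤ _ := pow_le_pow_right₀ hX1 (by omega)
    have g1 : (F : ℝ) * (((6 : ℕ) : ℝ) * ((∑ i ∈ range (laT (uS a0) k), g k i : ℕ) : ℝ))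
        ≤ (6 * F * 2 ^ (4 * c0)) * (X ^ (4 * c0 + 1) * J) := by
      calc _ ≤ (F : ℝ) * (((6 : ℕ) : ℝ) * (2 ^ (4 * c0) * (X ^ (4 * c0) * J))) := by
            gcongr
        _ = (6 * F * 2 ^ (4 * c0)) * (X ^ (4 * c0) * J) := by push_cast; ring
        _ ≤ _ := by gcongr
    have g2 : 56 * (E : ℝ) * (X * J) ≤ 56 * E * (X ^ (4 * c0 + 1) * J) := by gcongr
    linarith
  set C1 : ℝ := 6 * F * 2 ^ (4 * c0) + 56 * E with hC1
  have hC10 : 0 ≤ C1 := by positivity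
  have hP2 : ((∑ k ∈ KsI a0 J, (F * (6 * ∑ i ∈ range (laT (uS a0) k), g k i) +
      ∑ d ∈ range J, E * tN (aS a0 k) (rN a0 k) d) : ℕ) : ℝ)
      ≤ 11 * C1 * X ^ (4 * c0 + 3) * J := by
    rw [Nat.cast_sum]
    calc _ ≤ ∑ k ∈ KsI a0 J, C1 * (X ^ (4 * c0 + 1) * J) := sum_le_sum hterm
      _ = (KsI a0 J).card * (C1 * (X ^ (4 * c0 + 1) * J)) := by rw [sum_const, nsmul_eq_mul]
      _ ≤ (11 * X ^ 2) * (C1 * (X ^ (4 * c0 + 1) * J)) :=
          mul_le_mul_of_nonneg_right (card_KsI_le J) (by positivity)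
      _ = _ := by ring
  have h1' : ((∑ j ∈ range J, blockMax A j : ℕ) : ℝ) ≤
      (((badG Z Y (fun k => 4 * aS a0 k) (fun _ => ∅) J (KsI a0 J)).card *
        (D * (J + 1)) : ℕ) : ℝ) +
      ((∑ k ∈ KsI a0 J, (F * (6 * ∑ i ∈ range (laT (uS a0) k), g k i) +
        ∑ d ∈ range J, E * tN (aS a0 k) (rN a0 k) d) : ℕ) : ℝ) := by
    exact_mod_cast h1
  have hXa : X ^ 2 ≤ X ^ (4 * c0 + 3) := pow_le_pow_right₀ hX1 (by omega)
  have hD0 : (0 : ℝ) ≤ D := Nat.cast_nonneg _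
  calc _ ≤ (((Z 0 : ℕ) : ℝ) + 704) * (2 * D) * X ^ 2 * J + 11 * C1 * X ^ (4 * c0 + 3) * J :=
        h1'.trans (add_le_add hP1 hP2)
    _ ≤ (((Z 0 : ℕ) : ℝ) + 704) * (2 * D) * X ^ (4 * c0 + 3) * J +
        11 * C1 * X ^ (4 * c0 + 3) * J := by
        gcongr
    _ = _ := by ring

end

end Pool.Agent.Helper63.FN
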