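import Pool.Agent.Helper63.FN.Params
import Pool.Agent.Helper53.FM.Defs

/-!
# Project FN, D2, part 2: the bound `O(j / log j)` for every block
-/

set_option autoImplicit false

namespace Pool.Agent.Helper63.FN

open Filter Finset
open Pool.Agent.Helper53.WR
open Pool.Agent.Helper53.FM (blockMax)
open Pool.Agent.Helper63.WR2

noncomputable section

variable {c1 s0 a0 : ℕ}

/-- The logarithm of `j` in terms of the gain parameter. -/
lemma log_le_rN (H : ∀ a, a0 ≤ a → CondN c1 s0 a) {j k : ℕ} (hj : j ≤ 5 * aS a0 k) :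
    Real.log (j + 2) ≤ 9 * (rN a0 k : ℝ) := by
  have hpos := pos_aS H k
  have hr := one_le_rN H k
  have h1 : aS a0 k < 2 ^ (Nat.log 2 (aS a0 k) + 1) := Nat.lt_pow_succ_log_self (by norm_num) _
  have h2 : j + 2 ≤ 2 ^ (Nat.log 2 (aS a0 k) + 4) := by
    calc j + 2 ≤ 8 * aS a0 k := by omega
      _ ≤ 8 * 2 ^ (Nat.log 2 (aS a0 k) + 1) := Nat.mul_le_mul_left _ h1.le
      _ = 2 ^ (Nat.log 2 (aS a0 k) + 4) := by ring
  have h3 : Real.log (j + 2) ≤ Real.log ((2 : ℝ) ^ (Nat.log 2 (aS a0 k) + 4)) := by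
    apply Real.log_le_log (by positivity)
    exact_mod_cast h2
  rw [Real.log_pow] at h3
  have h4 : Real.log 2 < 1 := by
    have := Real.log_two_lt_d9
    linarith
  have h5 : (0 : ℝ) ≤ ((Nat.log 2 (aS a0 k) + 4 : ℕ) : ℝ) := Nat.cast_nonneg _
  have h6 : Nat.log 2 (aS a0 k) + 4 ≤ 9 * rN a0 k := by
    unfold rN at hr ⊢
    omega
  have h7 : ((Nat.log 2 (aS a0 k) + 4 : ℕ) : ℝ) ≤ 9 * (rN a0 k : ℝ) := by exact_mod_cast h6
  calc Real.log (j + 2) ≤ ((Nat.log 2 (aS a0 k) + 4 : ℕ) : ℝ) * Real.log 2 := h3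
    _ ≤ ((Nat.log 2 (aS a0 k) + 4 : ℕ) : ℝ) * 1 := mul_le_mul_of_nonneg_left h4.le h5
    _ ≤ _ := by rw [mul_one]; exact h7

/-- From the bound in each world to the bound for each block. -/
lemma sup_of (H : ∀ a, a0 ≤ a → CondN c1 s0 a) {A : Set ℕ} {z : ℕ → ℕ} {D D0 : ℕ}
    (hz : ∀ k, 4 * aS a0 k ≤ z k) (hz' : ∀ k, z (k + 1) ≤ 5 * aS a0 k)
    (hz0 : ∀ n, n < 2 ^ z 0 → rep A n ≤ D0)
    (hsup : ∀ k n, 2 ^ z k ≤ n → n < 2 ^ z (k + 1) → rep A n * rN a0 k ≤ D * aS a0 k) :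
    ∃ C : ℝ, 0 ≤ C ∧ ∀ j : ℕ, (blockMax A j : ℝ) * Real.log (j + 2) ≤ C * (j + 1) := by
  have hlog : ∀ j : ℕ, 0 ≤ Real.log ((j : ℝ) + 2) := fun j => Real.log_nonneg (by
    have : (0 : ℝ) ≤ j := Nat.cast_nonneg _
    linarith)
  have hlog' : ∀ j : ℕ, Real.log ((j : ℝ) + 2) ≤ (j : ℝ) + 1 := fun j => by
    have := Real.log_le_sub_one_of_pos (x := (j : ℝ) + 2) (by positivity)
    linarith
  refine ⟨D0 + 9 * D, by positivity, fun j => ?_⟩
  have hj0 : (0 : ℝ) ≤ j := Nat.cast_nonneg _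
  rcases Nat.lt_or_ge j (z 0) with hj | hj
  · have h1 : blockMax A j ≤ D0 := by
      unfold blockMax
      refine Finset.sup_le fun n hn => hz0 n ?_
      exact lt_of_lt_of_le (mem_Ico.1 hn).2 (Nat.pow_le_pow_right (by norm_num) hj)
    have h2 : (blockMax A j : ℝ) ≤ D0 := by exact_mod_cast h1
    calc (blockMax A j : ℝ) * Real.log (j + 2) ≤ D0 * ((j : ℝ) + 1) :=
          mul_le_mul h2 (hlog' j) (hlog j) (Nat.cast_nonneg _)
      _ ≤ (D0 + 9 * D) * ((j : ℝ) + 1) := by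
          apply mul_le_mul_of_nonneg_right _ (by linarith)
          have : (0 : ℝ) ≤ D := Nat.cast_nonneg _
          linarith
  · -- the world of `j`
    classical
    have hex : ∃ k, j < z (k + 1) := by
      refine ⟨j, ?_⟩
      have h1 : j + 1 ≤ aS a0 (j + 1) :=
        Pool.Agent.Helper63.WR2.le_aS (fun a h => (H a h).cond) (j + 1)
      have h2 := hz (j + 1)
      omega
    have h2 := Nat.find_spec hex
    set k := Nat.find hex with hk
    have h3 : z k ≤ j := by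
      rcases Nat.eq_zero_or_pos k with h0 | h0
      · rw [h0]
        exact hj
      · have h4 := Nat.find_min hex (m := k - 1) (by omega)
        rw [show k - 1 + 1 = k by omega] at h4
        omega
    have hj5 : j ≤ 5 * aS a0 k := by
      have := hz' k
      omega
    have h4 : blockMax A j * rN a0 k ≤ D * aS a0 k := by
      unfold blockMax
      have hne : (Finset.Ico (2 ^ j) (2 ^ (j + 1))).Nonempty := by
        rw [Finset.nonempty_Ico]
        exact Nat.pow_lt_pow_right (by norm_num) (by omega)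
      obtain ⟨n, hn, hn2⟩ := Finset.exists_mem_eq_sup _ hne (fun n => rep A n)
      rw [hn2]
      obtain ⟨g1, g2⟩ := mem_Ico.1 hn
      refine hsup k n ?_ ?_
      · exact (Nat.pow_le_pow_right (by norm_num) h3).trans g1
      · exact lt_of_lt_of_le g2 (Nat.pow_le_pow_right (by norm_num) h2)
    have h5 : (blockMax A j : ℝ) * rN a0 k ≤ D * aS a0 k := by exact_mod_cast h4
    have h6 : ((aS a0 k : ℕ) : ℝ) ≤ (j : ℝ) := by
      have := hz k
      exact_mod_cast (show aS a0 k ≤ j by omega)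
    have h7 := log_le_rN H hj5
    have hD : (0 : ℝ) ≤ D := Nat.cast_nonneg _
    have hD0 : (0 : ℝ) ≤ D0 := Nat.cast_nonneg _
    calc (blockMax A j : ℝ) * Real.log (j + 2)
        ≤ (blockMax A j : ℝ) * (9 * (rN a0 k : ℝ)) :=
          mul_le_mul_of_nonneg_left h7 (Nat.cast_nonneg _)
      _ = 9 * ((blockMax A j : ℝ) * rN a0 k) := by ring
      _ ≤ 9 * (D * aS a0 k) := mul_le_mul_of_nonneg_left h5 (by norm_num)
      _ ≤ 9 * (D * j) := by gcongr
      _ ≤ (D0 + 9 * D) * ((j : ℝ) + 1) := by nlinarith [mul_nonneg hD0 hj0, mul_nonneg hD hj0]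

end

end Pool.Agent.Helper63.FN
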